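import Pool.Agent.H3.BFL.Fdat

/-!
# The system of a family (row SYS of the board kbfo)
-/

set_option autoImplicit false

namespace Pool.BFL

open Finset Real
open Pool.Agent.H49.Ent Pool.Agent.H32.Dense Pool.STK Pool.KS3 Pool.KA Pool.KSAT Pool.K2S Pool.PB

/-- Row SYS: the system of a family, for all large events. As `SYS2Stmt`, for the system `fdc`
(directions bounded for all lines), and `2 * exp (-(ψ * J)) ≤ κ₁`. -/
def SYS3Stmt : Prop :=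
  ∀ (m K M : ℕ) (κ : ℝ), 2 ≤ m → 0 < κ → ∃ κ₁ : ℝ, 0 < κ₁ ∧ κ₁ ≤ κ ∧ ∃ z₀ : ℕ,
    ∀ (J r w₀ z h : ℕ) (ψ τ gs : ℝ) (F : Fam m J) (i₁ : Fin m) (A : F.Ω → Prop) (g : ℕ → ℕ)
      (tp : ℕ → ℕ → ℕ), z₀ ≤ z → r ≤ J → w₀ + (M + 1) * z ≤ r → F.Tr → 0 ≤ τ →
    F.Tm (τ * J) → F.Rb (τ * J) → τ * J ≤ κ₁ * z → 2 * Real.exp (-(τ * J)) ≤ κ₁ * Pe F.p A →
    Ch F i₁ h A → κ₁ * z ≤ 2 * (h * Real.log 2) → 4 * (gs * J) ≤ κ₁ * z → 0 < gs →
    2 * Real.exp (-(ψ * J)) ≤ κ₁ → Sp F (m - 2) ψ gs A → Monotone g →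
    (∀ k ≤ M, ((w₀ + k * z : ℕ) : ℝ) ≤ g k + κ₁ * z) →
    (∀ k ≤ M, Tb F i₁ r K (w₀ + k * z) (w₀ + k * z) (g k) A) →
    (∀ k v : ℕ, k + v ≤ M → Tb F i₁ r K (w₀ + (k + v) * z) (w₀ + k * z) (tp k v) A) →
    ∃ (Γ : Type) (c : ℕ → F.Ω → Γ) (y₀ : ℕ → Γ → Fin m → ℝ) (Φ : ℕ → Γ → Pl m)
      (A' : F.Ω → Prop), Sub A' A ∧ 1 / 4 * Pe F.p A ≤ Pe F.p A' ∧
      (∀ B : F.Ω → Prop, Sub B A' → Real.exp (-(τ * J)) ≤ Pe F.p B →
        Real.exp (-(ψ * J)) * Pe F.p A ≤ κ₁ * Pe F.p B →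
        (fdc F i₁ r c y₀ Φ g).Ok K J r w₀ z M κ (Pool.Agent.H49.Ent.cond F.p B True)) ∧
      ∀ k v : ℕ, k + v ≤ M →
        ∃ (Q : (((Fin m → ℝ) × (Fin m → ℝ)) × F.ζ) × ℕ → Pl m) (Qb : Γ → Pl m),
        (∀ x, (Q x).totalDegree ≤ K) ∧ (∀ x, (Qb x).totalDegree ≤ K) ∧
        ∀ ω, A' ω → |F.x ω i₁ - MvPolynomial.eval (bp F i₁ ω) (Qb (c (k + v) ω))| ≤
            Real.exp (κ * z) / 2 ^ tp k v ∧
          ∀ b : Fin m → ℝ, (∀ i, |b i - bp F i₁ ω i| ≤ 1 / 2 ^ (w₀ + (k + v) * z)) →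
            |MvPolynomial.eval b (Q ((F.l ω, F.Z ω), F.T ω / 2 ^ (J - (w₀ + k * z)))) -
              MvPolynomial.eval b (Qb (c (k + v) ω))| ≤ Real.exp (κ * z) / 2 ^ tp k v

theorem sys_thm (hCLO : CLOStmt) (hGRA : GRAStmt) (hTIM : TIMStmt) (hNCO : NCOStmt) :
    SYS3Stmt := by
  classical
  intro m K M κ hm hκ
  obtain ⟨κ₀, hκ₀, hκκ, zG, hG⟩ := hGRA m K M κ (by omega) hκ
  obtain ⟨zC, hC⟩ := hCLO m K M κ₀ (by omega) hκ₀
  set κ₁ : ℝ := min (κ₀ / 40) (1 / 2) with hκ₁def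
  have hκ₁ : 0 < κ₁ := lt_min (by linarith only [hκ₀]) (by norm_num)
  have hκ₁₀ : κ₁ ≤ κ₀ / 40 := min_le_left _ _
  have hκ₁h : κ₁ ≤ 1 / 2 := min_le_right _ _
  obtain ⟨zN, hN⟩ := hNCO m κ₁ hm hκ₁
  obtain ⟨z₁, hz₁⟩ := exists_nat_ge (40 / κ₀)
  refine ⟨κ₁, hκ₁, by linarith only [hκκ, hκ₁, hκ₁₀], zG + zC + zN + z₁, ?_⟩
  intro J r w₀ z h ψ τ gs F i₁ A g tp hz hrJ hw hTr hτ hTm hRb hτz hA hCh hκh hgs hgs0 hψ hSp hmono
    hg hball htube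
  have hp := F.isLaw
  have hz0 : (0 : ℝ) ≤ z := Nat.cast_nonneg z
  have hz1 : 40 ≤ κ₀ * z := by
    have h1 : (z₁ : ℝ) ≤ z := by exact_mod_cast (by omega : z₁ ≤ z)
    have h2 : 40 / κ₀ ≤ z := hz₁.trans h1
    rw [div_le_iff₀ hκ₀] at h2
    linarith only [h2]
  have hexpτ : 0 < Real.exp (-(τ * J)) := Real.exp_pos _
  have hA0 : 0 < Pe F.p A := by
    by_contra hc
    have h1 : κ₁ * Pe F.p A ≤ 0 := by nlinarith only [hA, hexpτ, hκ₁, hc]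
    linarith only [hA, hexpτ, h1]
  -- the closed labels
  obtain ⟨Γ, c, y₀, Φ, A₁, hA₁, hA₁P, hCl', hTub⟩ := hC J r w₀ z F i₁ A g tp (by omega) hrJ hw
    (fun k hk => (hg k hk).trans (by nlinarith only [hκ₁, hκ₁h, hz1, hκ₁₀])) hball htube
  set D := fdc F i₁ r c y₀ Φ g with hDdef
  have hCl : D.Cl K J w₀ z M κ₀ A₁ := fdc_Cl F i₁ r c y₀ Φ g hCl'
  have hA₁0 : 0 < Pe F.p A₁ := by linarith only [hA0, hA₁P]
  -- the times
  have htime : ∀ B : F.Ω → Prop, Real.exp (-(τ * J)) ≤ Pe F.p B →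
      J * Real.log 2 - κ₀ * z ≤ CH (Pool.Agent.H49.Ent.cond F.p B True) D.T D.ln := by
    intro B hB
    have h1 := hTIM m J F τ B hτ hTr hTm hRb hB
    refine le_trans ?_ h1
    nlinarith only [hτz, hz1, hκ₁₀]
  have hA₁τ : Real.exp (-(τ * J)) ≤ Pe F.p A₁ := by
    have h1 : κ₁ * Pe F.p A ≤ 1 / 2 * Pe F.p A := mul_le_mul_of_nonneg_right hκ₁h hA0.le
    linarith only [hA, hexpτ, hA₁P, h1]
  -- the fans
  have hnc : ∀ B : F.Ω → Prop, Sub B A → Real.exp (-(ψ * J)) * Pe F.p A ≤ κ₁ * Pe F.p B →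
      ∀ κ' : ℝ, κ₁ ≤ κ' →
      ∃ e : D.Z → ℝ, (∀ x, 0 ≤ e x) ∧
        Ex (Pool.Agent.H49.Ent.cond F.p B True) (fun ω => e (D.pt ω)) ≤ κ' ∧
        ∀ ω, 0 < Pool.Agent.H49.Ent.cond F.p B True ω → ∀ u : Fin m → ℝ, (∃ i, 1 ≤ |u i|) →
          Pb (Pool.Agent.H49.Ent.cond F.p B True) (fun ω' => D.pt ω' = D.pt ω ∧
            |∑ i, u i * D.E (D.ln ω') i| ≤ Real.exp (-(κ' * z))) ≤
            e (D.pt ω) * law (Pool.Agent.H49.Ent.cond F.p B True) D.pt (D.pt ω) := by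
    intro B hB hBP κ' hκ'
    obtain ⟨e, he0, heE, he⟩ := hN J r z h ψ gs F i₁ A B (by omega) hrJ hA0 hCh hκh hgs hgs0 hSp
      hB hBP
    refine ⟨e, he0, heE.trans hκ', ?_⟩
    intro ω hω u hu
    refine le_trans ?_ (he ω hω u hu)
    unfold Pb
    refine Finset.sum_le_sum fun ω' _ => ?_
    have hq0 : 0 ≤ Pool.Agent.H49.Ent.cond F.p B True ω' := cond_nonneg hp.nonneg B True ω'
    have e1 : D.E (D.ln ω') = Function.update (F.d ω') i₁ 1 := fdc_E F i₁ r c y₀ Φ g ω'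
    by_cases h1 : D.pt ω' = D.pt ω ∧ |∑ i, u i * D.E (D.ln ω') i| ≤ Real.exp (-(κ' * z))
    · have h2 : ptr F r ω' = ptr F r ω ∧
          |∑ i, u i * Function.update (F.d ω') i₁ 1 i| ≤ Real.exp (-(κ₁ * z)) := by
        refine ⟨h1.1, ?_⟩
        rw [← e1]
        refine h1.2.trans (Real.exp_le_exp.2 ?_)
        nlinarith only [hκ']
      rw [if_pos h1, if_pos h2]
    · rw [if_neg h1]
      split_ifs
      exacts [hq0, le_rfl]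
  have hdetT : ∀ B : F.Ω → Prop, Det (Pool.Agent.H49.Ent.cond F.p B True) D.pt D.T := by
    intro B ω ω' _ _ h1
    have h2 : F.W ω = F.W ω' := (Prod.ext_iff.mp h1).2
    exact (Prod.ext_iff.mp h2).1
  have hdetY : ∀ B : F.Ω → Prop,
      Det (Pool.Agent.H49.Ent.cond F.p B True) D.pt (D.cell J r) := by
    intro B ω ω' _ _ h1
    exact fdc_cell_pt F i₁ r c y₀ Φ g h1
  have hA₁ψ : Real.exp (-(ψ * J)) * Pe F.p A ≤ κ₁ * Pe F.p A₁ := by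
    have h1 : Real.exp (-(ψ * J)) * Pe F.p A ≤ κ₁ / 2 * Pe F.p A :=
      mul_le_mul_of_nonneg_right (by linarith only [hψ]) hA0.le
    have h2 : κ₁ * (1 / 2 * Pe F.p A) ≤ κ₁ * Pe F.p A₁ :=
      mul_le_mul_of_nonneg_left hA₁P hκ₁.le
    linarith only [h1, h2]
  -- the gradients
  obtain ⟨A₂, hA₂, hA₂P, hgrad⟩ := hG J r w₀ z D F.p A₁ (by omega) hp hA₁0 hrJ hw F.tim
    (fdc_E_le F i₁ r c y₀ Φ g) (fdc_A_i F i₁ r c y₀ Φ g) (fdc_E_i F i₁ r c y₀ Φ g)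
    (htime A₁ hA₁τ) (hdetT A₁) (hdetY A₁) hCl
    (hnc A₁ hA₁ hA₁ψ κ₀ (by linarith only [hκ₁, hκ₁₀]))
  have hexpκ : Real.exp (κ₀ * z) ≤ Real.exp (κ * z) :=
    Real.exp_le_exp.2 (mul_le_mul_of_nonneg_right hκκ hz0)
  have hA₂P' : 1 / 2 * Pe (Ω := F.Ω) F.p A₁ ≤ Pe (Ω := F.Ω) F.p A₂ := hA₂P
  refine ⟨Γ, c, y₀, Φ, A₂, hA₂.trans hA₁, by linarith only [hA₁P, hA₂P'], ?_, ?_⟩
  · intro B hB hBτ hBψ
    have hB1 : Sub B A₁ := hB.trans hA₂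
    have hB0 : 0 < Pe F.p B := lt_of_lt_of_le hexpτ hBτ
    have hsup : ∀ ω, 0 < Pool.Agent.H49.Ent.cond F.p B True ω → B ω := by
      intro ω hω
      exact of_eq_true ((cond_pos_iff hp.nonneg B True ω).mp hω).2
    refine
      { isLaw := isLaw_cond hp hB0
        r_le := hrJ
        top := hw
        T_lt := F.tim
        E_le := fdc_E_le F i₁ r c y₀ Φ g
        A_i₀ := fdc_A_i F i₁ r c y₀ Φ g
        E_i₀ := fdc_E_i F i₁ r c y₀ Φ g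
        time := ?_
        pt_T := hdetT B
        pt_Y := hdetY B
        c_pt := fun k hk ω ω' h1 h2 h3 =>
          hCl.c_pt k hk ω ω' (hB1 ω (hsup ω h1)) (hB1 ω' (hsup ω' h2)) h3
        c_wn := fun k hk ω ω' h1 h2 h3 =>
          hCl.c_wn k hk ω ω' (hB1 ω (hsup ω h1)) (hB1 ω' (hsup ω' h2)) h3
        c_c := fun k hk ω ω' h1 h2 h3 =>
          hCl.c_c k hk ω ω' (hB1 ω (hsup ω h1)) (hB1 ω' (hsup ω' h2)) h3
        c_T := fun k hk ω ω' h1 h2 h3 =>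
          hCl.c_T k hk ω ω' (hB1 ω (hsup ω h1)) (hB1 ω' (hsup ω' h2)) h3
        y₀_near := fun k hk ω h1 i => (hCl.y₀_near k hk ω (hB1 ω (hsup ω h1)) i).trans
          (div_le_div_of_nonneg_right hexpκ (by positivity))
        F_deg := hCl.F_deg
        F_hgt := fun k hk ω h1 => (hCl.F_hgt k hk ω (hB1 ω (hsup ω h1))).trans
          (div_le_div_of_nonneg_right hexpκ (by positivity))
        F_grad := fun k hk ω h1 => hgrad k hk ω (hB ω (hsup ω h1))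
        g_mono := hmono
        g_ge := fun k hk => (hg k hk).trans (by
          have : κ₁ * z ≤ κ * z := mul_le_mul_of_nonneg_right (by linarith only [hκκ, hκ₁, hκ₁₀]) hz0
          show (g k : ℝ) + κ₁ * z ≤ (g k : ℝ) + κ * z
          linarith only [this])
        nc := hnc B (hB1.trans hA₁) hBψ κ (by linarith only [hκκ, hκ₁, hκ₁₀]) }
    refine le_trans ?_ (htime B hBτ)
    have : κ₀ * z ≤ κ * z := mul_le_mul_of_nonneg_right hκκ hz0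
    linarith only [this]
  · intro k v hkv
    obtain ⟨Q, Qb, h1, h2, h3⟩ := hTub k v hkv
    refine ⟨Q, Qb, h1, h2, fun ω hω => ?_⟩
    obtain ⟨h4, h5⟩ := h3 ω (hA₂ ω hω)
    refine ⟨h4.trans (div_le_div_of_nonneg_right hexpκ (by positivity)), fun b hb =>
      (h5 b hb).trans (div_le_div_of_nonneg_right hexpκ (by positivity))⟩

end Pool.BFL
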