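import Pool.Agent.H19.BFL.Stmts7
import Pool.Agent.H35.K2S.Dich

/-!
# The system of a family, with bounded directions for all lines

`fdc` is `fdat` with the direction of a line truncated to `[-1, 1]`. On the lines of the family
nothing changes: `Y`, `rh`, `cell`, `XY`, `Cl`, `Rate`, `NewLab` of the two systems are the same.
-/

set_option autoImplicit false

namespace Pool.BFL

open Finset Real
open Pool.Agent.H49.Ent Pool.Agent.H32.Dense Pool.STK Pool.KS3 Pool.KA Pool.KSAT Pool.K2S Pool.PB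

variable {m J : ℕ}

theorem clamp_eq {x : ℝ} (h : |x| ≤ 1) : max (-1) (min x 1) = x := by
  rw [abs_le] at h
  rw [min_eq_left h.2, max_eq_right h.1]

theorem clamp_le (x : ℝ) : |max (-1) (min x 1)| ≤ 1 := by
  rw [abs_le]
  exact ⟨le_max_left _ _, max_le (by norm_num) (min_le_right _ _)⟩

/-- The system of a family, with bounded directions. -/
noncomputable def fdc (F : Fam m J) (i₁ : Fin m) (r : ℕ) {Γ : Type} (c : ℕ → F.Ω → Γ)
    (y₀ : ℕ → Γ → Fin m → ℝ) (Φ : ℕ → Γ → Pl m) (g : ℕ → ℕ) : Dat m where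
  Ω := F.Ω
  Λ := ((Fin m → ℝ) × (Fin m → ℝ)) × F.ζ
  Z := (Fin m → ℤ) × (ℕ × F.ζ)
  Γ := Γ
  fin := F.fin
  ln ω := (F.l ω, F.Z ω)
  A l := Function.update l.1.1 i₁ 0
  E l := Function.update (fun i => max (-1) (min (l.1.2 i) 1)) i₁ 1
  T := F.T
  h ω := F.x ω i₁
  pt := ptr F r
  c := c
  y₀ := y₀
  F := Φ
  g := g
  i₀ := i₁

section

variable (F : Fam m J) (i₁ : Fin m) (r : ℕ) {Γ : Type} (c : ℕ → F.Ω → Γ)
  (y₀ : ℕ → Γ → Fin m → ℝ) (Φ : ℕ → Γ → Pl m) (g : ℕ → ℕ)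

theorem fdc_E (ω : F.Ω) : (fdc F i₁ r c y₀ Φ g).E ((fdc F i₁ r c y₀ Φ g).ln ω) =
    Function.update (F.d ω) i₁ 1 := by
  show Function.update (fun i => max (-1) (min (F.d ω i) 1)) i₁ 1 = _
  congr 1
  funext i
  exact clamp_eq (F.dir ω i)

theorem fdc_E_le (l : ((Fin m → ℝ) × (Fin m → ℝ)) × F.ζ) (i : Fin m) :
    |(fdc F i₁ r c y₀ Φ g).E l i| ≤ 1 := by
  show |Function.update (fun i => max (-1) (min (l.1.2 i) 1)) i₁ 1 i| ≤ 1
  by_cases h : i = i₁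
  · subst h
    rw [Function.update_self]
    norm_num
  · rw [Function.update_of_ne h]
    exact clamp_le _

theorem fdc_E_i (l : ((Fin m → ℝ) × (Fin m → ℝ)) × F.ζ) :
    (fdc F i₁ r c y₀ Φ g).E l i₁ = 1 := by
  show Function.update (fun i => max (-1) (min (l.1.2 i) 1)) i₁ 1 i₁ = 1
  rw [Function.update_self]

theorem fdc_A_i (l : ((Fin m → ℝ) × (Fin m → ℝ)) × F.ζ) :
    (fdc F i₁ r c y₀ Φ g).A l i₁ = 0 := by
  show Function.update l.1.1 i₁ 0 i₁ = 0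
  rw [Function.update_self]

theorem fdat_E (ω : F.Ω) : (fdat F i₁ r c y₀ Φ g).E ((fdat F i₁ r c y₀ Φ g).ln ω) =
    Function.update (F.d ω) i₁ 1 := rfl

theorem fdc_Y (ω : F.Ω) : (fdc F i₁ r c y₀ Φ g).Y J ω = bp F i₁ ω := by
  funext i
  unfold Dat.Y
  rw [fdc_E]
  show Function.update (F.u ω) i₁ 0 i + (F.T ω : ℝ) / 2 ^ J * Function.update (F.d ω) i₁ 1 i =
    Function.update (F.x ω) i₁ (F.t ω) i
  by_cases h : i = i₁
  · subst h
    rw [Function.update_self, Function.update_self, Function.update_self]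
    unfold Fam.t
    ring
  · rw [Function.update_of_ne h, Function.update_of_ne h, Function.update_of_ne h]
    rfl

theorem fdat_Y (ω : F.Ω) : (fdat F i₁ r c y₀ Φ g).Y J ω = bp F i₁ ω := by
  funext i
  unfold Dat.Y
  show Function.update (F.u ω) i₁ 0 i + (F.T ω : ℝ) / 2 ^ J * Function.update (F.d ω) i₁ 1 i =
    Function.update (F.x ω) i₁ (F.t ω) i
  by_cases h : i = i₁
  · subst h
    rw [Function.update_self, Function.update_self, Function.update_self]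
    unfold Fam.t
    ring
  · rw [Function.update_of_ne h, Function.update_of_ne h, Function.update_of_ne h]
    rfl

theorem fdc_rh (k : ℕ) (ω : F.Ω) :
    (fdc F i₁ r c y₀ Φ g).rh J k ω = (fdat F i₁ r c y₀ Φ g).rh J k ω := by
  unfold Dat.rh
  rw [fdc_Y, fdat_Y]
  rfl

theorem fdc_cell (v : ℕ) (ω : F.Ω) :
    (fdc F i₁ r c y₀ Φ g).cell J v ω = (fdat F i₁ r c y₀ Φ g).cell J v ω := by
  funext i
  unfold Dat.cell
  rw [fdc_Y, fdat_Y]

theorem fdc_XY (P : ℕ) :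
    (fdc F i₁ r c y₀ Φ g).XY J P = (fdat F i₁ r c y₀ Φ g).XY J P := by
  refine funext fun (ω : F.Ω) => ?_
  show ((fdc F i₁ r c y₀ Φ g).cell J P ω, ⌊(2 : ℝ) ^ P * F.x ω i₁⌋) = _
  rw [fdc_cell]
  rfl

/-- The cells of the base are functions of the point. -/
theorem fdc_cell_pt {ω ω' : F.Ω} (h : ptr F r ω = ptr F r ω') :
    (fdc F i₁ r c y₀ Φ g).cell J r ω = (fdc F i₁ r c y₀ Φ g).cell J r ω' := by
  have h1 : F.X r ω = F.X r ω' := (Prod.ext_iff.mp h).1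
  have h2 : F.W ω = F.W ω' := (Prod.ext_iff.mp h).2
  have h3 : F.T ω = F.T ω' := (Prod.ext_iff.mp h2).1
  funext i
  unfold Dat.cell
  rw [fdc_Y, fdc_Y]
  show ⌊(2 : ℝ) ^ r * Function.update (F.x ω) i₁ (F.t ω) i⌋ =
    ⌊(2 : ℝ) ^ r * Function.update (F.x ω') i₁ (F.t ω') i⌋
  by_cases hi : i = i₁
  · subst hi
    rw [Function.update_self, Function.update_self]
    unfold Fam.t
    rw [h3]
  · rw [Function.update_of_ne hi, Function.update_of_ne hi]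
    exact congrFun h1 i

theorem fdc_Cl {K w₀ z M : ℕ} {κ : ℝ} {A : F.Ω → Prop}
    (h : (fdat F i₁ r c y₀ Φ g).Cl K J w₀ z M κ A) :
    (fdc F i₁ r c y₀ Φ g).Cl K J w₀ z M κ A where
  c_pt := h.c_pt
  c_wn := h.c_wn
  c_c := h.c_c
  c_T := h.c_T
  y₀_near := by
    intro k hk (ω : F.Ω) hω i
    have h1 := h.y₀_near k hk ω hω i
    rw [fdat_Y] at h1
    rw [fdc_Y]
    exact h1
  F_deg := h.F_deg
  F_hgt := by
    intro k hk (ω : F.Ω) hω
    rw [fdc_rh]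
    exact h.F_hgt k hk ω hω
  F_grad := by
    intro k hk (ω : F.Ω) hω i
    have h1 := h.F_grad k hk ω hω i
    rw [fdat_Y] at h1
    rw [fdc_Y]
    exact h1

theorem fdc_Rate {q : F.Ω → ℝ} {c₀ κ' : ℝ} {P₁ P₂ : ℕ}
    (h : (fdat F i₁ r c y₀ Φ g).Rate J q c₀ κ' P₁ P₂) :
    (fdc F i₁ r c y₀ Φ g).Rate J q c₀ κ' P₁ P₂ := by
  unfold Dat.Rate at h ⊢
  rw [fdc_XY, fdc_XY]
  exact h

theorem fdc_NewLab {K v P : ℕ} {q : F.Ω → ℝ}
    (h : (fdc F i₁ r c y₀ Φ g).NewLab K J q v P) :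
    (fdat F i₁ r c y₀ Φ g).NewLab K J q v P := by
  obtain ⟨G, h1, h2, h3, h4⟩ := h
  refine ⟨G, h1, ?_, ?_, ?_⟩
  · refine le_trans (le_of_eq ?_) h2
    congr 1
    refine funext fun (ω : F.Ω) => ?_
    rw [fdat_Y, fdc_Y]
    rfl
  · refine le_trans (le_of_eq ?_) h3
    congr 1
    refine funext fun (ω : F.Ω) => ?_
    rw [fdat_Y, fdc_Y]
    rfl
  · refine le_trans (le_of_eq ?_) h4
    congr 1
    refine funext fun (ω : F.Ω) => funext fun (ω' : F.Ω) => ?_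
    rw [fdat_Y, fdc_Y]
    rfl

end

end Pool.BFL
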